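import Pool.Agent.LKU.Stmts
import Pool.Agent.Helper46_LKT.EXT
import Pool.Agent.Helper15_LCK.UPS
import Pool.Agent.Helper32_LCK.SNC
import Pool.Agent.Helper83_LCK.DEN
import Pool.Agent.Helper92_LCK.REV

set_option autoImplicit false

namespace Pool.Agent.LKU.H52

open Pool.Agent.LCK Pool.Agent.LKT Pool.Agent.LKT.H46 Pool.Agent.LKU

/-- seven links, both orders -/
theorem base (hF : FnbStmt) (hR : RevStmt) (G G' : ℝ)
    (h : (2 < G ∧ Real.sqrt 5 < G') ∨ (Real.sqrt 5 < G ∧ 2 < G')) :
    Locked (n := 7) ![G, 1, 1, 1, 1, 1, G'] := by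
  rcases h with h | h
  · exact hF G G' h.1 h.2
  · refine hR 7 _ ?_
    have e : (fun k : Fin 7 => (![G, 1, 1, 1, 1, 1, G'] : Fin 7 → ℝ) (Fin.rev k)) =
        ![G', 1, 1, 1, 1, 1, G] := by
      funext k
      fin_cases k <;> rfl
    rw [e]
    exact hF G' G h.2 h.1

/-- EXC: longer chains -/
theorem exc (hF : FnbStmt) (hR : RevStmt) : ExcStmt := by
  intro n
  induction n with
  | zero =>
    intro l s hs
    omega
  | succ n ih =>
    intro l s hs hl h0 h1 h2 h3 h4 h5
    rcases s with _ | s
    · by_cases hn : 7 ≤ n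
      · have e : l = ap (fun k : Fin n => l k.castSucc) (l (Fin.last n)) := by
          funext k
          refine Fin.lastCases ?_ (fun i => ?_) k
          · unfold ap
            rw [Fin.snoc_last]
          · unfold ap
            rw [Fin.snoc_castSucc]
        rw [e]
        exact lock_ap _ (fun k => hl k.castSucc) _ (hl _)
          (ih (fun k : Fin n => l k.castSucc) 0 (by omega) (fun k => hl k.castSucc)
            h0 h1 h2 h3 h4 h5)
      · have hn6 : n = 6 := by omega
        subst hn6
        have e : l = ![l 0, 1, 1, 1, 1, 1, l 6] := by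
          funext k
          fin_cases k
          · rfl
          · exact h1
          · exact h2
          · exact h3
          · exact h4
          · exact h5
          · rfl
        rw [e]
        exact base hF hR (l 0) (l 6) h0
    · have e : l = pr (l 0) (fun k : Fin n => l k.succ) := by
        funext k
        refine Fin.cases ?_ (fun i => ?_) k
        · rfl
        · rfl
      have c : ∀ (i : ℕ) (hi : s + 1 + i < n + 1) (hi' : s + i < n),
          (fun k : Fin n => l k.succ) ⟨s + i, hi'⟩ = l ⟨s + 1 + i, hi⟩ := by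
        intro i hi hi'
        exact congrArg l (Fin.ext (by simp only [Fin.val_succ]; omega))
      rw [e]
      refine lock_pr _ (fun k => hl k.succ) _ (hl _)
        (ih (fun k : Fin n => l k.succ) s (by omega) (fun k => hl k.succ) ?_ ?_ ?_ ?_ ?_ ?_)
      · have c0 : l (Fin.succ ⟨s, by omega⟩) = l ⟨s + 1, by omega⟩ :=
          c 0 (by omega) (by omega)
        have c6 : l (Fin.succ ⟨s + 6, by omega⟩) = l ⟨s + 1 + 6, by omega⟩ :=
          c 6 (by omega) (by omega)
        show (2 < l (Fin.succ ⟨s, by omega⟩) ∧ Real.sqrt 5 < l (Fin.succ ⟨s + 6, by omega⟩)) ∨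
          (Real.sqrt 5 < l (Fin.succ ⟨s, by omega⟩) ∧ 2 < l (Fin.succ ⟨s + 6, by omega⟩))
        rw [c0, c6]
        exact h0
      · exact (c 1 (by omega) (by omega)).trans h1
      · exact (c 2 (by omega) (by omega)).trans h2
      · exact (c 3 (by omega) (by omega)).trans h3
      · exact (c 4 (by omega) (by omega)).trans h4
      · exact (c 5 (by omega) (by omega)).trans h5

end Pool.Agent.LKU.H52
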